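import Mathlib

/-!
# Common partitions of two trees need not be log-concave

Two trivalent trees with twelve labelled leaves for which the numbers of non-trivial common
partitions with 7, 8 and 9 classes are 56, 83 and 126; since `83 ^ 2 < 56 * 126`, the sequence is
not log-concave.
-/

set_option autoImplicit false

namespace Pool.Agent.Results.MP_8b9f13_co.NotLogConcave

open SimpleGraph

/-- A semilabelled binary tree of size `n`: a finite tree all of whose vertices have degree one or
three, with the vertices of degree one (the leaves) labelled bijectively by `Fin n`. -/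
structure BinTree (n : ℕ) where
  V : Type
  finite : Finite V
  graph : SimpleGraph V
  isTree : graph.IsTree
  degree : ∀ v, (graph.neighborSet v).ncard = 1 ∨ (graph.neighborSet v).ncard = 3
  leaf : Fin n ≃ {v : V // (graph.neighborSet v).ncard = 1}

/-- The partition of the labels obtained by deleting the edges in `S`: two labels are in the same
class when their leaves lie in the same component. -/
def BinTree.cut {n : ℕ} (T : BinTree n) (S : Set (Sym2 T.V)) : Setoid (Fin n) where
  r i j := (T.graph.deleteEdges S).Reachable (T.leaf i) (T.leaf j)
  iseqv := ⟨fun _ => Reachable.refl _, fun h => h.symm, fun h h' => h.trans h'⟩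

/-- The convex characters of `T`: all partitions of the labels obtained by deleting a set of
edges. -/
def BinTree.characters {n : ℕ} (T : BinTree n) : Set (Setoid (Fin n)) :=
  {P | ∃ S ⊆ T.graph.edgeSet, T.cut S = P}

/-- The number of classes of a partition. -/
noncomputable def numClasses {n : ℕ} (P : Setoid (Fin n)) : ℕ := Nat.card (Quotient P)

/-- A partition is non-trivial if it has at least two classes with at least two elements: one of
them contains `a ≠ a'`, the other one `b ≠ b'`. -/
def NonTrivial {n : ℕ} (P : Setoid (Fin n)) : Prop :=
  ∃ a a' b b', a ≠ a' ∧ b ≠ b' ∧ P a a' ∧ P b b' ∧ ¬ P a b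

/-- The number `a_k(T, F)` of non-trivial common partitions of `T` and `F` with `k` classes. -/
noncomputable def common {n : ℕ} (T F : BinTree n) (k : ℕ) : ℕ :=
  {P | P ∈ T.characters ∧ P ∈ F.characters ∧ numClasses P = k ∧ NonTrivial P}.ncard

/-! ### Trees given by a parent function -/

section parent

variable (N : ℕ) (par : ℕ → ℕ)

/-- The graph on `Fin N` in which each vertex other than `0` is joined to its parent. -/
def pgraph : SimpleGraph (Fin N) :=
  SimpleGraph.fromRel fun u v => v.val ≠ 0 ∧ par v.val = u.val

variable {N par}

/-- Climb from a vertex as long as the edges above are kept. -/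
def top (par : ℕ → ℕ) (keep : ℕ → Bool) : ℕ → ℕ → ℕ
  | 0, v => v
  | k + 1, v => bif (!Nat.beq v 0) && keep v then top par keep k (par v) else v

theorem top_zero (keep : ℕ → Bool) (k : ℕ) : top par keep k 0 = 0 := by
  cases k <;> simp [top]

theorem top_keep {keep : ℕ → Bool} {k v : ℕ} (h0 : v ≠ 0) (hv : keep v = true) :
    top par keep (k + 1) v = top par keep k (par v) := by
  have h : Nat.beq v 0 = false := by
    rw [← Bool.not_eq_true, Nat.beq_eq]
    exact h0
  simp [top, h, hv]

theorem top_cut {keep : ℕ → Bool} {k v : ℕ} (hv : keep v = false) :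
    top par keep k v = v := by
  cases k <;> simp [top, hv]

theorem top_le (hpar : ∀ v ≠ 0, par v < v) (keep : ℕ → Bool) (k v : ℕ) :
    top par keep k v ≤ v := by
  induction k generalizing v with
  | zero => simp [top]
  | succ k ih =>
    by_cases h0 : v = 0
    · subst h0; simp [top]
    · cases hv : keep v with
      | true => rw [top_keep h0 hv]; exact (ih _).trans (hpar v h0).le
      | false => rw [top_cut hv]

theorem top_stable (hpar : ∀ v ≠ 0, par v < v) (keep : ℕ → Bool) (k v : ℕ) (h : v ≤ k) :
    top par keep (k + 1) v = top par keep k v := by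
  induction k generalizing v with
  | zero =>
    have : v = 0 := by omega
    subst this
    simp [top]
  | succ k ih =>
    by_cases h0 : v = 0
    · subst h0; simp [top]
    · cases hv : keep v with
      | true =>
        rw [top_keep h0 hv, top_keep h0 hv]
        apply ih
        have := hpar v h0
        omega
      | false => rw [top_cut hv, top_cut hv]

theorem top_par (hpar : ∀ v ≠ 0, par v < v) {keep : ℕ → Bool} {k v : ℕ} (h : v ≤ k + 1)
    (h0 : v ≠ 0) (hv : keep v = true) :
    top par keep (k + 1) (par v) = top par keep (k + 1) v := by
  rw [top_keep h0 hv]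
  apply top_stable hpar
  have := hpar v h0
  omega

theorem pgraph_adj {u v : Fin N} : (pgraph N par).Adj u v ↔
    u ≠ v ∧ ((v.val ≠ 0 ∧ par v.val = u.val) ∨ (u.val ≠ 0 ∧ par u.val = v.val)) := by
  unfold pgraph
  rw [SimpleGraph.fromRel_adj]

/-- The edge from a vertex to its parent. -/
def pedge (hN : 0 < N) (par : ℕ → ℕ) (v : Fin N) : Sym2 (Fin N) :=
  s(v, if h : par v.val < N then ⟨par v.val, h⟩ else ⟨0, hN⟩)

theorem pedge_eq (hN : 0 < N) {u v : Fin N} (h : par v.val = u.val) :
    pedge hN par v = s(v, u) := by
  unfold pedge
  have : par v.val < N := by rw [h]; exact u.2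
  rw [dif_pos this]
  congr 2

/-- Reachability after the deletion of edges, in terms of climbing. -/
theorem reachable_iff (hN : 0 < N) (hpar : ∀ v ≠ 0, par v < v) (S : Set (Sym2 (Fin N)))
    (keep : ℕ → Bool) (hk : ∀ v : Fin N, v.val ≠ 0 → (keep v.val = true ↔ pedge hN par v ∉ S))
    (u v : Fin N) : ((pgraph N par).deleteEdges S).Reachable u v ↔
      top par keep N u.val = top par keep N v.val := by
  obtain ⟨M, rfl⟩ : ∃ M, N = M + 1 := ⟨N - 1, by omega⟩
  constructor
  · intro h
    obtain ⟨w⟩ := h
    induction w with
    | nil => rfl
    | @cons a b c hab _ ih =>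
      rw [← ih]
      rw [SimpleGraph.deleteEdges_adj, pgraph_adj] at hab
      obtain ⟨⟨-, ⟨h0, h⟩ | ⟨h0, h⟩⟩, hS⟩ := hab
      · have hkb : keep b.val = true := by
          rw [hk b h0, pedge_eq hN h, Sym2.eq_swap]
          exact hS
        have := top_par hpar (k := M) (by have := b.2; omega) h0 hkb
        rw [h] at this
        exact this
      · have hka : keep a.val = true := by
          rw [hk a h0, pedge_eq hN h]
          exact hS
        have := top_par hpar (k := M) (by have := a.2; omega) h0 hka
        rw [h] at this
        exact this.symm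
  · have key : ∀ (k : ℕ) (a b : Fin (M + 1)), b.val = top par keep k a.val →
        ((pgraph (M + 1) par).deleteEdges S).Reachable a b := by
      intro k
      induction k with
      | zero =>
        intro a b h
        have : b = a := Fin.ext (by rw [h]; rfl)
        rw [this]
      | succ k ih =>
        intro a b h
        by_cases h0 : a.val = 0
        · rw [h0, top_zero] at h
          have : b = a := Fin.ext (by rw [h, h0])
          rw [this]
        · cases hv : keep a.val with
          | false =>
            rw [top_cut hv] at h
            have : b = a := Fin.ext h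
            rw [this]
          | true =>
            rw [top_keep h0 hv] at h
            have hlt := hpar _ h0
            have ha := a.2
            refine Reachable.trans (Adj.reachable ?_) (ih ⟨par a.val, by omega⟩ b h)
            rw [SimpleGraph.deleteEdges_adj, pgraph_adj]
            refine ⟨⟨?_, Or.inr ⟨h0, rfl⟩⟩, ?_⟩
            · intro heq
              have := congrArg Fin.val heq
              simp only at this
              omega
            · have := (hk a h0).1 hv
              rw [pedge_eq (u := ⟨par a.val, by omega⟩) hN rfl] at this
              exact this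
    intro h
    have hlt : top par keep (M + 1) u.val < M + 1 :=
      lt_of_le_of_lt (top_le hpar _ _ _) u.2
    exact (key (M + 1) u ⟨_, hlt⟩ rfl).trans (key (M + 1) v ⟨_, hlt⟩ h).symm

/-- The path between two vertices, as a bit mask (computed by climbing). -/
def pmask (par : ℕ → ℕ) : ℕ → ℕ → ℕ → ℕ
  | 0, u, _ => 2 ^ u
  | k + 1, u, w => bif Nat.beq u w then 2 ^ u else
      bif Nat.blt w u then 2 ^ u ||| pmask par k (par u) w
      else 2 ^ w ||| pmask par k u (par w)

/-- All vertices on the path between two vertices of one component lie in this component. -/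
theorem pmask_top (hpar : ∀ v ≠ 0, par v < v) {keep : ℕ → Bool} (M : ℕ) (k : ℕ) :
    ∀ u w b : ℕ, u ≤ M → w ≤ M → top par keep (M + 1) u = top par keep (M + 1) w →
      (pmask par k u w).testBit b = true →
      top par keep (M + 1) b = top par keep (M + 1) u := by
  induction k with
  | zero =>
    intro u w b _ _ _ hb
    simp only [pmask, Nat.testBit_two_pow, decide_eq_true_eq] at hb
    rw [hb]
  | succ k ih =>
    intro u w b hu hw h hb
    unfold pmask at hb
    by_cases h1 : u = w
    · subst h1
      simp only [Nat.beq_refl, cond_true, Nat.testBit_two_pow, decide_eq_true_eq] at hb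
      rw [hb]
    · have h1' : Nat.beq u w = false := by
        rw [← Bool.not_eq_true, Nat.beq_eq]
        exact h1
      rw [h1', cond_false] at hb
      by_cases h2 : w < u
      · have h2' : Nat.blt w u = true := by rw [Nat.blt_eq]; exact h2
        rw [h2', cond_true, Nat.testBit_or, Bool.or_eq_true] at hb
        have h0 : u ≠ 0 := by omega
        have hkeep : keep u = true := by
          cases hv : keep u with
          | true => rfl
          | false =>
            exfalso
            rw [top_cut hv] at h
            have := top_le hpar keep (M + 1) w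
            omega
        have hp := top_par hpar (k := M) (by omega) h0 hkeep
        rcases hb with hb | hb
        · simp only [Nat.testBit_two_pow, decide_eq_true_eq] at hb
          rw [hb]
        · have := ih (par u) w b (by have := hpar u h0; omega) hw (hp.trans h) hb
          rw [this, hp]
      · have h2' : Nat.blt w u = false := by
          rw [← Bool.not_eq_true, Nat.blt_eq]
          exact h2
        rw [h2', cond_false, Nat.testBit_or, Bool.or_eq_true] at hb
        have h0 : w ≠ 0 := by omega
        have hkeep : keep w = true := by
          cases hv : keep w with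
          | true => rfl
          | false =>
            exfalso
            rw [top_cut (v := w) hv] at h
            have := top_le hpar keep (M + 1) u
            omega
        have hp := top_par hpar (k := M) (by omega) h0 hkeep
        rcases hb with hb | hb
        · simp only [Nat.testBit_two_pow, decide_eq_true_eq] at hb
          rw [← hb, h]
        · exact ih u (par w) b hu (by have := hpar w h0; omega) (h.trans hp.symm) hb

end parent

/-! ### The two trees -/

/-- The parent function of the first tree. -/
def parT (v : ℕ) : ℕ := (64113513589277921488502495708160 >>> (5 * v)) &&& 31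

/-- The leaf positions of the first tree. -/
def lfT (i : ℕ) : ℕ := (590591818909142432 >>> (5 * i)) &&& 31

/-- The parent function of the second tree. -/
def parF (v : ℕ) : ℕ := (64103610039300229140664793760768 >>> (5 * v)) &&& 31

/-- The leaf positions of the second tree. -/
def lfF (i : ℕ) : ℕ := (409989926006440096 >>> (5 * i)) &&& 31

/-- The table of all paths between leaves of the first tree. -/
def tabT (i j : ℕ) : ℕ :=
  (7191947040631103764796781889827709522881605591734511318562088578779152727844374708280168800563307289942426717488532701139897438260531850758832813111133330715429366511554911921395110205441341607619662129616991327358247531602803783988352929012435628263220646296299855442719743454609734973727041725013755452170069973218323535225747826960572141078263773750134536273736612701878140060913642143520994926274409140170371726063438414135902018426886036690483191596655470701322439602987919134200779354006214955074404933924038053386881039584887684336344322261816990369490565949506850710704284684572828113802236650670174755809726691521230001438167718479698076385359960524477101779153788430666858689436643001781118037076840728639307211429811242019705722786574390590432681615868283036044376875803505109930699315579077746182120233088013939423293759253525013686079727192753437711454568744000297714750175873977220014952699723041594666814153070576481651097277823660851201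 >>> (22 * (12 * i + j))) &&& 4194303

/-- The table of all paths between leaves of the second tree. -/
def tabF (i j : ℕ) : ℕ :=
  (224748433611475406713998172484332071756061397799593769190394027733427453221420971972773177973235936425767870896738412432416766559186992454718503406269465868391748404313089378672828173156584897815787297728958712068285191095158272550410597492053372184515514141758462584420060747272060242459608606879461874060177911303649016624256494750325542186343503596811797781290604605308771595997576591759416879793715204393163941275889006786198304123054040755819249245417181969036062849750922494896349443423857261056344539410892894865749190802988038306725157638151234505319388814163934882727440144547535406259160690218043058547827986057717379507015784181424414556208109867651880470802695492746022218194809860074691644843335797947049099391201637656181776428960520846756229551269136273107808419051536831681976206458916437089231238359097277261012951097370398560317711265719759050047036064252705305801246099194652914898883903610940347067865081140659311914205821722951681 >>> (22 * (12 * i + j))) &&& 4194303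

theorem parT_lt : ∀ v ≠ 0, parT v < v := by
  intro v hv
  by_cases h : v < 22
  · interval_cases v <;> simp_all <;> decide
  · have : parT v = 0 := by
      unfold parT
      rw [Nat.shiftRight_eq_div_pow, Nat.div_eq_of_lt]
      · rfl
      · calc _ < 2 ^ (5 * 22) := by norm_num
          _ ≤ 2 ^ (5 * v) := Nat.pow_le_pow_right (by norm_num) (by omega)
    omega

theorem parF_lt : ∀ v ≠ 0, parF v < v := by
  intro v hv
  by_cases h : v < 22
  · interval_cases v <;> simp_all <;> decide
  · have : parF v = 0 := by
      unfold parF
      rw [Nat.shiftRight_eq_div_pow, Nat.div_eq_of_lt]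
      · rfl
      · calc _ < 2 ^ (5 * 22) := by norm_num
          _ ≤ 2 ^ (5 * v) := Nat.pow_le_pow_right (by norm_num) (by omega)
    omega

instance (par : ℕ → ℕ) : DecidableRel (pgraph 22 par).Adj := fun _ _ =>
  decidable_of_iff _ pgraph_adj.symm

/-- What has to be checked about a parent function and the positions of the leaves. -/
structure Good (par lf : ℕ → ℕ) : Prop where
  lt : ∀ v ≠ 0, par v < v
  root : ∀ v : Fin 22, top par (fun _ => true) 22 v.val = 0
  card : (pgraph 22 par).edgeFinset.card + 1 = 22
  deg : ∀ v : Fin 22, (Finset.univ.filter ((pgraph 22 par).Adj v)).card = 1 ∨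
    (Finset.univ.filter ((pgraph 22 par).Adj v)).card = 3
  pos : ∀ i : Fin 12, lf i.val < 22
  leaf : ∀ i : Fin 12, ∀ v : Fin 22, v.val = lf i.val →
    (Finset.univ.filter ((pgraph 22 par).Adj v)).card = 1
  inj : ∀ i j : Fin 12, lf i.val = lf j.val → i = j
  surj : ∀ v : Fin 22, (Finset.univ.filter ((pgraph 22 par).Adj v)).card = 1 →
    ∃ i : Fin 12, lf i.val = v.val

theorem goodT : Good parT lfT where
  lt := parT_lt
  root := by decide +kernel
  card := by decide +kernel
  deg := by decide +kernel
  pos := by decide +kernel
  leaf := by decide +kernel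
  inj := by decide +kernel
  surj := by decide +kernel

theorem goodF : Good parF lfF where
  lt := parF_lt
  root := by decide +kernel
  card := by decide +kernel
  deg := by decide +kernel
  pos := by decide +kernel
  leaf := by decide +kernel
  inj := by decide +kernel
  surj := by decide +kernel

theorem ncard_nbr (par : ℕ → ℕ) (v : Fin 22) : ((pgraph 22 par).neighborSet v).ncard =
    (Finset.univ.filter ((pgraph 22 par).Adj v)).card := by
  rw [← Set.ncard_coe_finset]
  congr 1
  ext w
  simp [SimpleGraph.mem_neighborSet]

theorem pgraph_isTree {par lf : ℕ → ℕ} (h : Good par lf) : (pgraph 22 par).IsTree := by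
  rw [SimpleGraph.isTree_iff_connected_and_card]
  constructor
  · have key : ∀ u v : Fin 22, (pgraph 22 par).Reachable u v := by
      intro u v
      have := (reachable_iff (N := 22) (by norm_num) h.lt ∅ (fun _ => true)
        (fun v _ => by simp) u v).2 (by rw [h.root, h.root])
      rwa [SimpleGraph.deleteEdges_empty] at this
    exact { preconnected := key, nonempty := ⟨0⟩ }
  · have h1 := h.card
    rw [Nat.card_eq_fintype_card, Nat.card_eq_fintype_card, Fintype.card_fin,
      ← SimpleGraph.edgeFinset_card]
    exact h1

/-- The tree with twelve leaves given by a parent function and the leaf positions. -/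
noncomputable def mkTree {par lf : ℕ → ℕ} (h : Good par lf) : BinTree 12 where
  V := Fin 22
  finite := inferInstance
  graph := pgraph 22 par
  isTree := pgraph_isTree h
  degree := fun v => by
    rw [ncard_nbr]
    exact h.deg v
  leaf := Equiv.ofBijective (fun i => ⟨⟨lf i.val, h.pos i⟩, by
      rw [ncard_nbr]
      exact h.leaf i _ rfl⟩) (by
    constructor
    · intro i j hij
      have h1 := congrArg Subtype.val hij
      have h2 := congrArg Fin.val h1
      exact h.inj i j h2
    · rintro ⟨v, hv⟩
      rw [ncard_nbr] at hv
      obtain ⟨i, hi⟩ := h.surj v hv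
      exact ⟨i, Subtype.ext (Fin.ext hi)⟩)

theorem mkTree_leaf {par lf : ℕ → ℕ} (h : Good par lf) (i : Fin 12) :
    (((mkTree h).leaf i).val : Fin 22) = ⟨lf i.val, h.pos i⟩ := rfl

/-- Intersecting paths of a convex partition belong to the same class. -/
theorem meet {par lf : ℕ → ℕ} (h : Good par lf) {P : Setoid (Fin 12)}
    (hP : P ∈ (mkTree h).characters) {i i' j j' : Fin 12} (h1 : P i i') (h2 : P j j')
    (h3 : pmask par 22 (lf i.val) (lf i'.val) &&& pmask par 22 (lf j.val) (lf j'.val) ≠ 0) :
    P i j := by
  classical
  obtain ⟨S, -, rfl⟩ := hP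
  let keep : ℕ → Bool := fun v =>
    decide (∃ hv : v < 22, pedge (N := 22) (by norm_num) par ⟨v, hv⟩ ∉ S)
  have hk : ∀ v : Fin 22, v.val ≠ 0 →
      (keep v.val = true ↔ pedge (N := 22) (by norm_num) par v ∉ S) := by
    intro v _
    simp only [keep, decide_eq_true_eq]
    constructor
    · rintro ⟨_, h⟩
      exact h
    · intro h
      exact ⟨v.2, h⟩
  have key : ∀ a b : Fin 12, ((mkTree h).cut S) a b ↔
      top par keep 22 (lf a.val) = top par keep 22 (lf b.val) := by
    intro a b
    exact reachable_iff (N := 22) (by norm_num) h.lt S keep hk _ _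
  rw [key] at h1 h2 ⊢
  obtain ⟨b, hb⟩ := Nat.exists_testBit_of_ne_zero h3
  rw [Nat.testBit_and, Bool.and_eq_true] at hb
  have hi := h.pos i
  have hi' := h.pos i'
  have hj := h.pos j
  have hj' := h.pos j'
  have e1 := pmask_top h.lt 21 22 _ _ b (by omega) (by omega) h1 hb.1
  have e2 := pmask_top h.lt 21 22 _ _ b (by omega) (by omega) h2 hb.2
  exact e1.symm.trans e2

theorem pedge_inj {par : ℕ → ℕ} (hpar : ∀ v ≠ 0, par v < v) {u v : Fin 22} (hu : u.val ≠ 0)
    (hv : v.val ≠ 0) (h : pedge (N := 22) (by norm_num) par u =
      pedge (N := 22) (by norm_num) par v) : u = v := by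
  have h1 := hpar _ hu
  have h2 := hpar _ hv
  rw [pedge_eq (u := ⟨par u.val, by omega⟩) (by norm_num) rfl,
    pedge_eq (u := ⟨par v.val, by omega⟩) (by norm_num) rfl, Sym2.eq_iff] at h
  rcases h with ⟨h, -⟩ | ⟨h, h'⟩
  · exact h
  · have e1 := congrArg Fin.val h
    have e2 := congrArg Fin.val h'
    simp only at e1 e2
    omega

/-- A partition given by climbing along the kept edges is convex. -/
theorem mem_characters {par lf : ℕ → ℕ} (h : Good par lf) {P : Setoid (Fin 12)} (K : ℕ)
    (hP : ∀ i j, P i j ↔ top par K.testBit 22 (lf i.val) = top par K.testBit 22 (lf j.val)) :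
    P ∈ (mkTree h).characters := by
  refine ⟨{e | ∃ v : Fin 22, v.val ≠ 0 ∧ K.testBit v.val = false ∧
    e = pedge (N := 22) (by norm_num) par v}, ?_, ?_⟩
  · rintro e ⟨v, h0, -, rfl⟩
    have h1 := h.lt _ h0
    rw [pedge_eq (u := ⟨par v.val, by omega⟩) (by norm_num) rfl]
    change _ ∈ (pgraph 22 par).edgeSet
    rw [SimpleGraph.mem_edgeSet, pgraph_adj]
    refine ⟨?_, Or.inr ⟨h0, rfl⟩⟩
    intro heq
    have := congrArg Fin.val heq
    simp only at this
    omega
  · ext i j
    rw [hP]
    refine reachable_iff (N := 22) (by norm_num) h.lt _ K.testBit ?_ _ _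
    intro v h0
    constructor
    · rintro hv ⟨v', h0', hv', he⟩
      have := pedge_inj h.lt h0 h0' he
      subst this
      rw [hv] at hv'
      exact absurd hv' (by decide)
    · intro hv
      cases hK : K.testBit v.val with
      | true => rfl
      | false => exact absurd ⟨v, h0, hK, rfl⟩ hv

/-! ### Codes of partitions -/

/-- `c` sends every label to the smallest label of its class. -/
structure IsRep (P : Setoid (Fin 12)) (c : ℕ → ℕ) : Prop where
  le : ∀ i < 12, c i ≤ i
  iff : ∀ i j (hi : i < 12) (hj : j < 12), P ⟨i, hi⟩ ⟨j, hj⟩ ↔ c i = c j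
  idem : ∀ i < 12, c (c i) = c i

theorem exists_rep (P : Setoid (Fin 12)) : ∃ c, IsRep P c := by
  classical
  have hne : ∀ i : Fin 12, (Finset.univ.filter fun j => P j i).Nonempty := fun i =>
    ⟨i, by simp⟩
  let r : Fin 12 → Fin 12 := fun i => (Finset.univ.filter fun j => P j i).min' (hne i)
  have h1 : ∀ i, P (r i) i := by
    intro i
    have := Finset.min'_mem _ (hne i)
    rw [Finset.mem_filter] at this
    exact this.2
  have h2 : ∀ i j, P j i → r i ≤ j := by
    intro i j h
    apply Finset.min'_le
    simp [h]
  have h3 : ∀ i j, P i j → r i = r j := by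
    intro i j h
    apply le_antisymm
    · exact h2 _ _ (P.trans' (h1 j) (P.symm' h))
    · exact h2 _ _ (P.trans' (h1 i) h)
  refine ⟨fun i => if h : i < 12 then (r ⟨i, h⟩).val else 0, ?_, ?_, ?_⟩
  · intro i hi
    simp only [dif_pos hi]
    exact h2 ⟨i, hi⟩ ⟨i, hi⟩ (P.refl' _)
  · intro i j hi hj
    simp only [dif_pos hi, dif_pos hj]
    constructor
    · intro h
      rw [h3 _ _ h]
    · intro h
      have h' : r ⟨i, hi⟩ = r ⟨j, hj⟩ := Fin.ext h
      have h4 := h1 ⟨j, hj⟩
      rw [← h'] at h4
      exact P.trans' (P.symm' (h1 ⟨i, hi⟩)) h4
  · intro i hi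
    simp only [dif_pos hi, Fin.is_lt, dite_true]
    exact congrArg Fin.val (h3 _ _ (h1 ⟨i, hi⟩))

theorem rep_unique {P : Setoid (Fin 12)} {c c' : ℕ → ℕ} (h : IsRep P c) (h' : IsRep P c') :
    ∀ i < 12, c i = c' i := by
  have key : ∀ c c' : ℕ → ℕ, IsRep P c → IsRep P c' → ∀ i < 12, c i ≤ c' i := by
    intro c c' h h' i hi
    have h1 := h'.le i hi
    have h2 : c (c' i) = c i := by
      rw [← h.iff _ _ (by omega) hi, h'.iff _ _ (by omega) hi]
      exact h'.idem i hi
    rw [← h2]
    exact h.le _ (by omega)
  intro i hi
  exact le_antisymm (key _ _ h h' i hi) (key _ _ h' h i hi)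

/-- The list of the first values of a function. -/
def st (c : ℕ → ℕ) : ℕ → List (ℕ × ℕ)
  | 0 => []
  | i + 1 => (i, c i) :: st c i

theorem mem_st {c : ℕ → ℕ} {n : ℕ} {p : ℕ × ℕ} : p ∈ st c n ↔ p.1 < n ∧ p.2 = c p.1 := by
  induction n with
  | zero => simp [st]
  | succ n ih =>
    rw [st, List.mem_cons, ih]
    constructor
    · rintro (rfl | ⟨h1, h2⟩)
      · exact ⟨Nat.lt_succ_self n, rfl⟩
      · exact ⟨by omega, h2⟩
    · rintro ⟨h1, h2⟩
      by_cases h : p.1 = n
      · left
        rw [← h, ← h2]
      · right
        exact ⟨by omega, h2⟩

/-- The number of labels that are their own representatives. -/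
def countCl (L : List (ℕ × ℕ)) : ℕ := L.countP fun p => Nat.beq p.1 p.2

/-- The list describes a partition with two classes of size at least two. -/
def ntriv (L : List (ℕ × ℕ)) : Bool :=
  L.any fun p => !Nat.beq p.1 p.2 && L.any fun q => !Nat.beq q.1 q.2 && !Nat.beq p.2 q.2

theorem countCl_st (c : ℕ → ℕ) (n : ℕ) :
    countCl (st c n) = ((Finset.range n).filter fun i => i = c i).card := by
  induction n with
  | zero => simp [st, countCl]
  | succ n ih =>
    rw [st, Finset.range_add_one, Finset.filter_insert]
    unfold countCl at ih ⊢
    by_cases h : n = c n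
    · rw [if_pos h, Finset.card_insert_of_notMem (by simp), List.countP_cons_of_pos, ih]
      simp only [Nat.beq_eq]
      exact h
    · rw [if_neg h, List.countP_cons_of_neg, ih]
      simp only [Nat.beq_eq]
      exact h

theorem numClasses_eq {P : Setoid (Fin 12)} {c : ℕ → ℕ} (h : IsRep P c) :
    numClasses P = countCl (st c 12) := by
  classical
  rw [countCl_st]
  unfold numClasses
  have e : {i : Fin 12 // i.val = c i.val} ≃ Quotient P := by
    refine Equiv.ofBijective (fun i => Quotient.mk P i.1) ⟨?_, ?_⟩
    · rintro ⟨i, hi⟩ ⟨j, hj⟩ hij
      have h1 : P i j := Quotient.exact hij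
      have h2 := (h.iff i.val j.val i.2 j.2).1 h1
      apply Subtype.ext
      apply Fin.ext
      simp only
      omega
    · intro q
      obtain ⟨j, rfl⟩ := Quotient.exists_rep q
      have h1 := h.le j.val j.2
      have h2 := j.2
      refine ⟨⟨⟨c j.val, by omega⟩, (h.idem j.val j.2).symm⟩, ?_⟩
      apply Quotient.sound
      exact (h.iff _ _ _ j.2).2 (h.idem j.val j.2)
  rw [← Nat.card_congr e, Nat.card_eq_fintype_card, Fintype.card_subtype]
  refine Finset.card_bij (fun i _ => i.val) ?_ ?_ ?_
  · intro i hi
    rw [Finset.mem_filter] at hi
    rw [Finset.mem_filter, Finset.mem_range]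
    exact ⟨i.2, hi.2⟩
  · intro i _ j _ hij
    exact Fin.ext hij
  · intro i hi
    rw [Finset.mem_filter, Finset.mem_range] at hi
    exact ⟨⟨i, hi.1⟩, by simpa using hi.2, rfl⟩

theorem nonTrivial_iff {P : Setoid (Fin 12)} {c : ℕ → ℕ} (h : IsRep P c) :
    NonTrivial P ↔ ntriv (st c 12) = true := by
  unfold ntriv
  simp only [List.any_eq_true, Bool.and_eq_true, Bool.not_eq_true', ← Bool.not_eq_true,
    Nat.beq_eq]
  constructor
  · rintro ⟨a, a', b, b', ha, hb, h1, h2, h3⟩
    have key : ∀ a a' : Fin 12, a ≠ a' → P a a' → ∃ x : ℕ, x < 12 ∧ x ≠ c x ∧ c x = c a.val := by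
      intro a a' ha h1
      have h1' := (h.iff _ _ a.2 a'.2).1 h1
      by_cases hx : a.val = c a.val
      · refine ⟨a'.val, a'.2, ?_, h1'.symm⟩
        intro hy
        apply ha
        apply Fin.ext
        omega
      · exact ⟨a.val, a.2, hx, rfl⟩
    obtain ⟨x, hx1, hx2, hx3⟩ := key a a' ha h1
    obtain ⟨y, hy1, hy2, hy3⟩ := key b b' hb h2
    refine ⟨(x, c x), mem_st.2 ⟨hx1, rfl⟩, hx2, (y, c y), mem_st.2 ⟨hy1, rfl⟩, hy2, ?_⟩
    simp only
    rw [hx3, hy3]
    intro heq
    exact h3 ((h.iff _ _ a.2 b.2).2 heq)
  · rintro ⟨⟨x, cx⟩, hx, hx2, ⟨y, cy⟩, hy, hy2, hxy⟩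
    rw [mem_st] at hx hy
    obtain ⟨hx, hcx⟩ := hx
    obtain ⟨hy, hcy⟩ := hy
    simp only at hx hcx hy hcy hx2 hy2 hxy
    subst hcx
    subst hcy
    have h1 := h.le x hx
    have h2 := h.le y hy
    refine ⟨⟨x, hx⟩, ⟨c x, by omega⟩, ⟨y, hy⟩, ⟨c y, by omega⟩, ?_, ?_, ?_, ?_, ?_⟩
    · intro heq
      exact hx2 (congrArg Fin.val heq)
    · intro heq
      exact hy2 (congrArg Fin.val heq)
    · exact (h.iff _ _ hx _).2 (h.idem x hx).symm
    · exact (h.iff _ _ hy _).2 (h.idem y hy).symm
    · intro heq
      exact hxy ((h.iff _ _ hx hy).1 heq)

/-! ### Enumeration of all common partitions -/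

/-- The label `i` can be put in the class of `r`. -/
def ok (i : ℕ) (L : List (ℕ × ℕ)) (r : ℕ) : Bool :=
  L.all fun p => Nat.beq p.2 r ||
    (Nat.beq (tabT r i &&& tabT p.2 p.1) 0 && Nat.beq (tabF r i &&& tabF p.2 p.1) 0)

/-- The possible representatives of the label `i`. -/
def cands (i : ℕ) (L : List (ℕ × ℕ)) : List ℕ :=
  i :: (L.filter fun p => Nat.beq p.1 p.2).map Prod.fst

/-- All codes of common partitions of the first labels. -/
def enum : ℕ → List (List (ℕ × ℕ))
  | 0 => [[]]
  | i + 1 => (enum i).flatMap fun L => ((cands i L).filter (ok i L)).map fun r => (i, r) :: L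

theorem tabT_eq : ∀ i j : Fin 12, tabT i.val j.val = pmask parT 22 (lfT i.val) (lfT j.val) := by
  decide +kernel

theorem tabF_eq : ∀ i j : Fin 12, tabF i.val j.val = pmask parF 22 (lfF i.val) (lfF j.val) := by
  decide +kernel

theorem mem_enum {P : Setoid (Fin 12)} (hT : P ∈ (mkTree goodT).characters)
    (hF : P ∈ (mkTree goodF).characters) {c : ℕ → ℕ} (h : IsRep P c) :
    ∀ i ≤ 12, st c i ∈ enum i := by
  intro i
  induction i with
  | zero => intro _; simp [st, enum]
  | succ i ih =>
    intro hi
    have hi' : i < 12 := by omega
    have hci := h.le i hi'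
    unfold enum
    rw [List.mem_flatMap]
    refine ⟨st c i, ih (by omega), ?_⟩
    rw [List.mem_map]
    refine ⟨c i, ?_, rfl⟩
    rw [List.mem_filter]
    constructor
    · unfold cands
      rw [List.mem_cons, List.mem_map]
      by_cases hc : c i = i
      · left
        exact hc
      · right
        refine ⟨(c i, c i), ?_, rfl⟩
        rw [List.mem_filter, mem_st]
        simp only [Nat.beq_refl, and_true]
        exact ⟨by omega, (h.idem i hi').symm⟩
    · unfold ok
      rw [List.all_eq_true]
      rintro ⟨b, s⟩ hp
      rw [mem_st] at hp
      obtain ⟨hb, hs⟩ := hp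
      simp only at hb hs
      subst hs
      have hb' : b < 12 := by omega
      have hcb := h.le b hb'
      by_cases hbi : c b = c i
      · rw [Bool.or_eq_true]
        left
        rw [Nat.beq_eq]
        exact hbi
      · rw [Bool.or_eq_true]
        right
        have hPi : P ⟨c i, by omega⟩ ⟨i, hi'⟩ := (h.iff _ _ _ _).2 (h.idem i hi')
        have hPb : P ⟨c b, by omega⟩ ⟨b, hb'⟩ := (h.iff _ _ _ _).2 (h.idem b hb')
        have hn : ¬ P ⟨c i, by omega⟩ ⟨c b, by omega⟩ := by
          intro hP
          apply hbi
          have := (h.iff _ _ _ _).1 hP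
          rw [h.idem i hi', h.idem b hb'] at this
          exact this.symm
        have e1 := tabT_eq ⟨c i, by omega⟩ ⟨i, hi'⟩
        have e2 := tabT_eq ⟨c b, by omega⟩ ⟨b, hb'⟩
        have e3 := tabF_eq ⟨c i, by omega⟩ ⟨i, hi'⟩
        have e4 := tabF_eq ⟨c b, by omega⟩ ⟨b, hb'⟩
        simp only at e1 e2 e3 e4
        rw [Bool.and_eq_true, Nat.beq_eq, Nat.beq_eq, e1, e2, e3, e4]
        constructor
        · by_contra hne
          exact hn (meet goodT hT hPi hPb hne)
        · by_contra hne
          exact hn (meet goodF hF hPi hPb hne)

/-- The codes of the non-trivial common partitions with eight classes. -/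
def codes8 : List (List (ℕ × ℕ)) :=
  (enum 12).filter fun L => Nat.beq (countCl L) 8 && ntriv L

theorem length_codes8 : codes8.length = 83 := by
  decide +kernel

instance : Finite (Setoid (Fin 12)) :=
  Finite.of_injective (fun (P : Setoid (Fin 12)) (i j : Fin 12) => P i j) (by
    intro P Q h
    ext i j
    exact iff_of_eq (congrFun (congrFun h i) j))

theorem common_eight_le : common (mkTree goodT) (mkTree goodF) 8 ≤ 83 := by
  classical
  choose c hc using exists_rep
  rw [← length_codes8]
  refine le_trans ?_ (List.toFinset_card_le codes8)
  rw [← Set.ncard_coe_finset]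
  unfold common
  refine Set.ncard_le_ncard_of_injOn (fun P => st (c P) 12) ?_ ?_ (Finset.finite_toSet _)
  · rintro P ⟨hT, hF, h8, hn⟩
    simp only [List.coe_toFinset, Set.mem_ofPred_eq]
    unfold codes8
    rw [List.mem_filter]
    refine ⟨mem_enum hT hF (hc P) 12 le_rfl, ?_⟩
    rw [Bool.and_eq_true, Nat.beq_eq, ← numClasses_eq (hc P), ← nonTrivial_iff (hc P)]
    exact ⟨h8, hn⟩
  · intro P _ Q _ hPQ
    simp only at hPQ
    have h1 : ∀ i < 12, c P i = c Q i := by
      intro i hi
      have : (i, c P i) ∈ st (c P) 12 := mem_st.2 ⟨hi, rfl⟩
      rw [hPQ, mem_st] at this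
      exact this.2
    ext i j
    rw [← Fin.eta i i.2, ← Fin.eta j j.2, (hc P).iff _ _ i.2 j.2, (hc Q).iff _ _ i.2 j.2,
      h1 _ i.2, h1 _ j.2]

/-! ### The lower bounds -/

/-- The hexadecimal digits of a code. -/
def dig (m i : ℕ) : ℕ := (m >>> (4 * i)) &&& 15

/-- The partition of a code. -/
def part (m : ℕ) : Setoid (Fin 12) := Setoid.ker fun i : Fin 12 => dig m i.val

/-- Digits of the code together with the tops of the leaves. -/
def tops (par lf : ℕ → ℕ) (m K : ℕ) : List (ℕ × ℕ) :=
  (List.range 12).map fun i => (dig m i, top par K.testBit 22 (lf i))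

/-- The set `K` of kept edges induces the partition with the code `m`. -/
def chk (par lf : ℕ → ℕ) (m K : ℕ) : Bool :=
  (tops par lf m K).all fun p => (tops par lf m K).all fun q =>
    (Nat.beq p.1 q.1 && Nat.beq p.2 q.2) || (!Nat.beq p.1 q.1 && !Nat.beq p.2 q.2)

/-- All checks for a code with `k` classes. -/
def good (k : ℕ) (t : ℕ × ℕ × ℕ) : Bool :=
  chk parT lfT t.1 t.2.1 && chk parF lfF t.1 t.2.2 &&
    ((List.range 12).all fun i => Nat.ble (dig t.1 i) i &&
      Nat.beq (dig t.1 (dig t.1 i)) (dig t.1 i)) &&
    Nat.beq (countCl (st (dig t.1) 12)) k && ntriv (st (dig t.1) 12) &&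
    Nat.beq t.1 ((List.range 12).map fun i => dig t.1 i * 16 ^ i).sum

theorem chk_iff {par lf : ℕ → ℕ} {m K : ℕ} (h : chk par lf m K = true) (i j : Fin 12) :
    part m i j ↔ top par K.testBit 22 (lf i.val) = top par K.testBit 22 (lf j.val) := by
  unfold chk at h
  rw [List.all_eq_true] at h
  have h1 := h (dig m i.val, top par K.testBit 22 (lf i.val)) (by
    unfold tops
    rw [List.mem_map]
    exact ⟨i.val, List.mem_range.2 i.2, rfl⟩)
  rw [List.all_eq_true] at h1
  have h2 := h1 (dig m j.val, top par K.testBit 22 (lf j.val)) (by
    unfold tops
    rw [List.mem_map]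
    exact ⟨j.val, List.mem_range.2 j.2, rfl⟩)
  simp only [Bool.or_eq_true, Bool.and_eq_true, Nat.beq_eq, Bool.not_eq_true',
    ← Bool.not_eq_true] at h2
  show dig m i.val = dig m j.val ↔ _
  rcases h2 with ⟨h3, h4⟩ | ⟨h3, h4⟩
  · exact ⟨fun _ => h4, fun _ => h3⟩
  · exact ⟨fun h => absurd h h3, fun h => absurd h h4⟩

theorem good_spec {k : ℕ} {t : ℕ × ℕ × ℕ} (h : good k t = true) :
    part t.1 ∈ (mkTree goodT).characters ∧ part t.1 ∈ (mkTree goodF).characters ∧
      numClasses (part t.1) = k ∧ NonTrivial (part t.1) ∧ IsRep (part t.1) (dig t.1) ∧
      t.1 = ((List.range 12).map fun i => dig t.1 i * 16 ^ i).sum := by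
  unfold good at h
  simp only [Bool.and_eq_true] at h
  obtain ⟨⟨⟨⟨⟨h1, h2⟩, h3⟩, h4⟩, h5⟩, h6⟩ := h
  rw [List.all_eq_true] at h3
  have hrep : IsRep (part t.1) (dig t.1) := by
    refine ⟨?_, ?_, ?_⟩
    · intro i hi
      have := h3 i (List.mem_range.2 hi)
      rw [Bool.and_eq_true] at this
      exact Nat.le_of_ble_eq_true this.1
    · intro i j hi hj
      exact Iff.rfl
    · intro i hi
      have := h3 i (List.mem_range.2 hi)
      rw [Bool.and_eq_true, Nat.beq_eq] at this
      exact this.2
  refine ⟨mem_characters goodT _ (chk_iff h1), mem_characters goodF _ (chk_iff h2), ?_, ?_,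
    hrep, ?_⟩
  · rw [numClasses_eq hrep]
    exact Nat.eq_of_beq_eq_true h4
  · rw [nonTrivial_iff hrep]
    exact h5
  · exact Nat.eq_of_beq_eq_true h6

theorem le_common {k : ℕ} (O : List (ℕ × ℕ × ℕ)) (hg : O.all (good k) = true)
    (hn : (O.map Prod.fst).Nodup) : O.length ≤ common (mkTree goodT) (mkTree goodF) k := by
  classical
  rw [List.all_eq_true] at hg
  have h1 : O.length = (O.map Prod.fst).toFinset.card := by
    rw [List.toFinset_card_of_nodup hn, List.length_map]
  rw [h1, ← Set.ncard_coe_finset]
  unfold common
  refine Set.ncard_le_ncard_of_injOn part ?_ ?_ (Set.toFinite _)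
  · intro m hm
    simp only [List.coe_toFinset, Set.mem_ofPred_eq, List.mem_map] at hm
    obtain ⟨t, ht, rfl⟩ := hm
    obtain ⟨g1, g2, g3, g4, -⟩ := good_spec (hg t ht)
    exact ⟨g1, g2, g3, g4⟩
  · intro m hm m' hm' heq
    simp only [List.coe_toFinset, Set.mem_ofPred_eq, List.mem_map] at hm hm'
    obtain ⟨t, ht, rfl⟩ := hm
    obtain ⟨t', ht', rfl⟩ := hm'
    obtain ⟨-, -, -, -, g5, g6⟩ := good_spec (hg t ht)
    obtain ⟨-, -, -, -, g5', g6'⟩ := good_spec (hg t' ht')
    rw [← heq] at g5'
    have h2 := rep_unique g5 g5'
    rw [g6, g6']
    congr 1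
    apply List.map_congr_left
    intro i hi
    rw [List.mem_range] at hi
    rw [h2 i hi]

/-- The common partitions with seven classes. -/
def codes7 : List (ℕ × ℕ × ℕ) :=
  [(18764818297360, 1570974, 2891258),
   (37529530413584, 2087070, 2997722),
   (56294242529808, 1563550, 3939802),
   (93823666762256, 1564062, 2915802),
   (18794878874128, 261534, 2129402),
   (19314569916944, 1441182, 2915818),
   (28660418753040, 1568158, 2911738),
   (194686674547216, 1506718, 2913786),
   (37555297071632, 1039774, 2227674),
   (38010563605008, 1957278, 3014018),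
   (46325620290064, 2082206, 3010010),
   (195859201667600, 2022814, 3012058),
   (56315715269136, 253854, 3440090),
   (56706557293072, 1433502, 3964290),
   (63990821827088, 1558430, 3960282),
   (197031728787984, 1499038, 3962330),
   (18794883060240, 261022, 3415546),
   (19314574103056, 1440670, 3939818),
   (28660422939152, 1567646, 3935738),
   (194686678733328, 1506206, 3937786),
   (19344634679824, 130974, 3440106),
   (28690483515920, 257950, 3436026),
   (194716739310096, 196510, 3438074),
   (29210174558736, 1437598, 3960298),
   (195236430352912, 1343390, 3962346),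
   (204582279189008, 1503134, 3956986),
   (37555300213264, 1039262, 3522010),
   (38010566746640, 1956766, 4046210),
   (46325623431696, 2081694, 4042202),
   (195859204809232, 2022302, 4044250),
   (38036333404688, 909214, 3538306),
   (46351390089744, 1034142, 3534298),
   (195884971467280, 974750, 3536346),
   (46806656623120, 1951646, 4058498),
   (196340238000656, 1859486, 4060546),
   (204655294685712, 2017182, 4055258),
   (18794883068176, 1046686, 2211322),
   (19314574110992, 1964190, 2997738),
   (28660422947088, 2091166, 2993658),
   (194686678741264, 2029726, 2995706),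
   (19344634687760, 916894, 2227690),
   (28690483523856, 1043870, 2223610),
   (194716739318032, 982430, 2225658),
   (29210174566672, 1961374, 3010026),
   (195236430360848, 1867166, 3012074),
   (204582279196944, 2026910, 3006714),
   (19344638873872, 916382, 3522026),
   (28690487709968, 1043358, 3517946),
   (194716743504144, 981918, 3519994),
   (29210178752784, 1960862, 4042218),
   (195236434546960, 1866654, 4044266),
   (204582283383056, 2026398, 4038906),
   (29240239329552, 913310, 3534314),
   (195266495123728, 819102, 3536362),
   (204612343959824, 978846, 3531002),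
   (205132035002640, 1863582, 4055274)]

/-- The common partitions with nine classes. -/
def codes9 : List (ℕ × ℕ × ℕ) :=
  [(199013589856784, 1498438, 816478),
   (112779236487696, 1693928, 900736),
   (200259130372624, 2005224, 898776),
   (199524690965008, 1498456, 2913628),
   (19344638882320, 129182, 2104810),
   (38036336554512, 907422, 2211074),
   (56728034226704, 121758, 3415426),
   (94111429571088, 122270, 2129154),
   (150186522587664, 1431710, 2891138),
   (168878220259856, 252062, 2104794),
   (196847047291408, 187230, 3413406),
   (199046070546960, 187742, 2127134),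
   (28690487718416, 256158, 2100730),
   (194716743512592, 194718, 2102778),
   (46351393239568, 1015838, 2207194),
   (195884974617104, 972958, 2209242),
   (64012298760720, 246686, 3411418),
   (197053205721616, 187294, 3413466),
   (99334109803024, 247198, 2125274),
   (199389667930640, 187806, 2127322),
   (152316826366480, 1540126, 2887130),
   (199595826360848, 1482014, 2913626),
   (202894361244176, 1497246, 2889178),
   (199630186099216, 1334622, 2913606),
   (29210178761232, 1435806, 2887146),
   (195236434555408, 1341598, 2889194),
   (204582283391504, 1501342, 2883706),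
   (46806659772944, 1933342, 2993538),
   (187544148128272, 1693854, 2996354),
   (196340241150480, 1857694, 2995586),
   (204517858882064, 1753182, 2990238),
   (204586578358800, 1763486, 2990258),
   (204655297835536, 1998878, 2990298),
   (64403140784656, 1426334, 3935618),
   (169956257051152, 1524638, 3673562),
   (195245024490000, 1340318, 3675626),
   (197444047745552, 1334174, 3937666),
   (204728312279568, 1491870, 3932250),
   (99596102808080, 1426846, 2911618),
   (199651660935696, 1334686, 2913666),
   (204874341167632, 1492382, 2908378),
   (46806928208400, 1943768, 2993580),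
   (204586846794256, 1763544, 2990268),
   (187569817268752, 121022, 2104262),
   (204612247499280, 190654, 2098166),
   (205140528476688, 1328062, 3670982),
   (198498160226832, 3578092, 964440),
   (204584128885264, 3598508, 959352),
   (204730157773328, 3589036, 2007896),
   (187570958119440, 2218172, 2276292),
   (204613388349968, 2287804, 2270196),
   (205141669327376, 3425212, 3843012),
   (199597688631824, 1482216, 816984),
   (29240239338000, 126366, 2125290),
   (195266495132176, 15646, 2127338),
   (204612343968272, 191902, 2121978),
   (205132035011088, 1338782, 2908394),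
   (46832426430992, 902558, 2223362),
   (169977728741904, 1000862, 2215386),
   (195266496180752, 816542, 2217450),
   (196366007808528, 810398, 2225410),
   (204681064493584, 968094, 2220250),
   (205136331026960, 1852830, 3006594),
   (205162000167440, 804286, 2212806),
   (112805004194320, 122600, 1343104),
   (196848924242448, 188230, 1340830),
   (197329960579600, 188248, 3437980),
   (64424613523984, 116638, 3435906),
   (187569915834896, 122526, 3438722),
   (197465520484880, 7966, 3437954),
   (204543626588688, 181854, 3432606),
   (204612346065424, 192158, 3432626),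
   (204749785018896, 182174, 3432666),
   (205140627042832, 1329054, 3956866),
   (204612614500880, 192216, 3432636),
   (152318704366096, 3638724, 970200),
   (198498192732688, 3579332, 980312),
   (205095228944912, 3573228, 975704),
   (112805006029328, 2218218, 179910),
   (187569917669904, 2218142, 2275526),
   (204612347900432, 2287774, 2269430),
   (205140628877840, 3425182, 3842246),
   (187571696054800, 2218158, 179142),
   (204614126285328, 2287790, 173046),
   (205142407262736, 3425198, 1745862),
   (195268374049296, 2915652, 226792),
   (169979607659024, 3098052, 249304),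
   (195268375097872, 2913732, 251368),
   (205163711312400, 2901492, 2343876),
   (197467399402000, 2907972, 1537408),
   (46832429564432, 885726, 3517766),
   (29240243524112, 125854, 3411434),
   (46832429568528, 895774, 3517802),
   (195266499318288, 15134, 3413482),
   (204612348154384, 191390, 3407994),
   (205132039197200, 1338270, 3932266),
   (46832698003984, 895960, 3517804),
   (46834241507856, 912232, 1421160),
   (82018647151120, 2222956, 1486696),
   (204614193648144, 2288556, 1483640),
   (205133884690960, 3435436, 2007912),
   (117203048600080, 126824, 1339112),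
   (205162099773968, 12062, 3432682),
   (46834308485648, 3009348, 1551720),
   (195268378235408, 2915140, 1512936),
   (205163915776528, 2911084, 1549160),
   (205163978691088, 2912068, 1532136),
   (46832429572624, 902046, 3517826),
   (196366010950160, 809886, 3519874),
   (204681067635216, 967582, 3514586),
   (205136334168592, 1852318, 4038786),
   (205162100826640, 804766, 3530882),
   (29240243532048, 911518, 2207210),
   (195266499326224, 817310, 2209258),
   (204612348162320, 977054, 2203898),
   (205132039205136, 1861790, 2990314),
   (205162099781904, 814494, 2220266),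
   (205162103968016, 813982, 3514602),
   (46808538821120, 1943750, 896430),
   (204519737930240, 1763526, 893118),
   (46832429576704, 895198, 2207022),
   (152385545843200, 1419486, 2887086),
   (205136334172672, 1583326, 2990254),
   (204545505636864, 192198, 1335486),
   (205162101879296, 11998, 3432622),
   (46834308612608, 895942, 1420654)]

theorem seven_le : 56 ≤ common (mkTree goodT) (mkTree goodF) 7 :=
  le_common codes7 (by decide +kernel) (by decide +kernel)

theorem nine_le : 126 ≤ common (mkTree goodT) (mkTree goodF) 9 :=
  le_common codes9 (by decide +kernel) (by decide +kernel)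

/-- **The numbers of non-trivial common partitions of two trees are not always log-concave.** -/
theorem result : ∃ (n : ℕ) (T F : BinTree n) (k : ℕ), 1 < k ∧ k < n ∧
    common T F k ^ 2 < common T F (k - 1) * common T F (k + 1) := by
  refine ⟨12, mkTree goodT, mkTree goodF, 8, by norm_num, by norm_num, ?_⟩
  calc common (mkTree goodT) (mkTree goodF) 8 ^ 2 ≤ 83 ^ 2 :=
        Nat.pow_le_pow_left common_eight_le 2
    _ < 56 * 126 := by norm_num
    _ ≤ common (mkTree goodT) (mkTree goodF) (8 - 1) *
        common (mkTree goodT) (mkTree goodF) (8 + 1) := Nat.mul_le_mul seven_le nine_le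

end Pool.Agent.Results.MP_8b9f13_co.NotLogConcave
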